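import Pool.Agent.Helper72.RepCube.Certificates
import Pool.Agent.Helper72.RepCube.UnitNets

namespace Pool.Agent.Results.MP_0163eb_co.AllElevenNets

open Pool.Agent.Helper72.RepCube

/-- Check of the definitions (not part of the result): the edge nets in the sense of `IsEdgeNet`
are, up to congruence, exactly the eleven hexominoes of the explicit list `bases`. -/
theorem edgeNets_are_the_eleven :
    bases.length = 11 ∧ (∀ B ∈ bases, IsEdgeNet B.toFinset) ∧
      ∀ N : Finset (ℤ × ℤ), IsEdgeNet N → ∃ B ∈ bases, Congruent N B.toFinset := by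
  refine ⟨rfl, isEdgeNet_bases, ?_⟩
  intro N hN
  obtain ⟨j, B, hB, hrel⟩ := edgeNet_rel N hN
  exact ⟨B, List.mem_of_getElem? hB, hrel.symm.congruent⟩

/-- Every edge net of the unit cube admits a uniform rep-cube, of order `4`, `9` or `36`. -/
theorem result : ∀ N : Finset (ℤ × ℤ), IsEdgeNet N →
    ∃ (k : ℕ) (P : Finset (ℤ × ℤ)), (k = 4 ∨ k = 9 ∨ k = 36) ∧ IsUniformRepCube N P k := by
  intro N hN
  obtain ⟨j, B, hB, hrel⟩ := edgeNet_rel N hN
  obtain ⟨D, hD, hchk, hk⟩ := exists_data j B hB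
  obtain ⟨hpoly, hnet, Q, hdisj, hunion, hQ⟩ := D.sound hchk
  obtain ⟨hNp, _, F, hF, _⟩ := hN
  have hNnet : IsCubeNet N := ⟨1, one_pos, F, hF⟩
  have hrelQ : ∀ i, Pool.Agent.Helper72.RepCube.Rel N (Q i) := by
    intro i
    refine hrel.symm.trans ?_
    rw [← hD]
    exact hQ i
  refine ⟨D.k, D.S, hk, ?_, hpoly, hnet, Q, hdisj, hunion, fun i =>
    ⟨(hrelQ i).isPolyomino hNp, (hrelQ i).isCubeNet hNnet, (hrelQ i).symm.congruent⟩⟩
  omega

end Pool.Agent.Results.MP_0163eb_co.AllElevenNets
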